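import Pool.Agent.Helper29.B5.Iota
import Pool.Agent.Helper38.BN.IntD
import Pool.Agent.Helper38.BN.PiF
import Pool.Agent.Helper20.DN.S6

/-!
# Project DN (MP_2ec7a7_al), block BR: automorphisms of the braid group which preserve the exponent sum

`BrH k ≤ HB k` is the braid group on the strands `0, …, k`, `k = p + 3 ≥ 4`. An automorphism of `BrH k` which
preserves the exponent sum and induces an inner automorphism on the permutations is inner (`brInner`).
The scheme is the one of `Helper29/B5/Main.lean` (`k = 4`): after an inner automorphism the permutations are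
preserved, hence the stabilizer `iota (HB (k-1))` of the strand `0`, where the automorphism is inner (`aut_H`,
the exponent sum excludes the transvections and `Sp`); after another inner automorphism it is the identity there,
and `(a_0)⁻¹ φ(a_0)` commutes with the free group of `HB (k-1)`, so it is a power of `ζ`, and the exponent sum shows
that it is `1`.
-/

namespace Pool.Agent.Helper16.DN

open Pool.Agent.Helper38.BN Pool.Agent.Helper20.DN Equiv
open Pool.Agent.Helper29.B5 (iota_inj eq_zeta_pow)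

section
variable {k : ℕ}

theorem iota_mem (h : HB k) : iota k h ∈ BrH (k + 1) := by
  have h1 : h ∈ (BrH (k + 1)).comap (iota k) := by
    apply BTwo.HB_le
    · intro j hj
      rw [Subgroup.mem_comap, BTwo.iota_a hj]
      exact Subgroup.subset_closure ⟨j + 1, Nat.succ_lt_succ hj, rfl⟩
    · rw [Subgroup.mem_comap, BTwo.iota_d]
      have h0 : (aH 0 : HB (k + 1)) ∈ BrH (k + 1) :=
        Subgroup.subset_closure ⟨0, Nat.succ_pos k, rfl⟩
      exact Subgroup.mul_mem _ h0 h0
  exact h1

/-- the exponent sum of `HB k`, with `d ↦ 0` -/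
def el (k : ℕ) : HB k →* Multiplicative ℤ :=
  liftH (k := k) (a := fun _ => Multiplicative.ofAdd (1 : ℤ)) (d := 1)
    { comm := fun _ _ _ _ => rfl
      braid := fun _ _ => rfl
      dcomm := fun _ _ _ => by rw [mul_one, one_mul]
      four := fun _ => by rw [mul_one, mul_one, one_mul, mul_one] }

lemma el_a {j : ℕ} (hj : j < k) : el k (aH j) = Multiplicative.ofAdd 1 := liftH_a _ hj

lemma el_kap {j : ℕ} (hj : j ≤ k) : el k (kap aH j) = Multiplicative.ofAdd (j : ℤ) := by
  induction j with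
  | zero => exact map_one _
  | succ j ih =>
    show el k (kap aH j * aH j) = _
    rw [map_mul, ih (by omega), el_a (by omega), ← ofAdd_add]
    push_cast
    rfl

lemma el_Om : el k (Om k (aH : ℕ → HB k)) = Multiplicative.ofAdd ((k : ℤ) * (k + 1)) := by
  unfold Om
  rw [map_pow, el_kap le_rfl, ← ofAdd_nsmul]
  congr 1
  rw [nsmul_eq_mul]
  push_cast
  ring

/-- homomorphisms on the braid group -/
theorem Br_ext {K : Type*} [Group K] {f g : BrH k →* K}
    (h : ∀ j (hj : j < k), f (aB j hj) = g (aB j hj)) : f = g := by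
  have key : ∀ (x : HB k) (hx : x ∈ BrH k), f ⟨x, hx⟩ = g ⟨x, hx⟩ := by
    intro x hx
    induction hx using Subgroup.closure_induction with
    | mem x hx =>
      obtain ⟨j, hj, rfl⟩ := hx
      exact h j hj
    | one =>
      have h1 : (⟨1, Subgroup.one_mem _⟩ : BrH k) = 1 := rfl
      rw [h1, map_one, map_one]
    | mul x y hx hy ihx ihy =>
      have h1 : (⟨x * y, Subgroup.mul_mem _ hx hy⟩ : BrH k) = ⟨x, hx⟩ * ⟨y, hy⟩ := rfl
      rw [h1, map_mul, map_mul, ihx, ihy]
    | inv x hx ihx =>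
      have h1 : (⟨x⁻¹, Subgroup.inv_mem _ hx⟩ : BrH k) = (⟨x, hx⟩)⁻¹ := rfl
      rw [h1, map_inv, map_inv, ihx]
  ext x
  exact key x.1 x.2

/-- the transvection with `l = 0` -/
theorem Tr_zero (x : HB k) : Tr k 0 x = x := by
  have h1 : Tr k 0 = MonoidHom.id (HB k) := by
    apply homH_ext
    · intro i hi
      unfold Tr
      rw [liftH_a _ hi]
      simp
    · unfold Tr
      rw [liftH_d]
      simp
  exact DFunLike.congr_fun h1 x

/-- a permutation which commutes with `(0 1)` and `(1 2)` fixes `0` -/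
theorem fix_zero {T : Perm ℕ} (h0 : T * swap 0 1 * T⁻¹ = swap 0 1)
    (h1 : T * swap 1 2 * T⁻¹ = swap 1 2) : T 0 = 0 := by
  rw [← Equiv.swap_apply_apply] at h0 h1
  have e0 : T 1 = swap 0 1 (T 0) := by
    rw [← h0, swap_apply_left]
  have e1 : T 2 = swap 1 2 (T 1) := by
    rw [← h1, swap_apply_left]
  have n0 : T 1 ≠ T 0 := fun e => absurd (T.injective e) (by decide)
  have n1 : T 2 ≠ T 1 := fun e => absurd (T.injective e) (by decide)
  rw [swap_apply_def] at e0 e1
  split_ifs at e0 e1 <;> omega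

end

section
variable {p : ℕ}

/-- the inclusion of the stabilizer of the strand `0` -/
def io (p : ℕ) : HB (p + 2) →* BrH (p + 3) :=
  (iota (p + 2)).codRestrict (BrH (p + 3)) (fun x => iota_mem (k := p + 2) x)

lemma io_coe (x : HB (p + 2)) : ((io p x : BrH (p + 3)) : HB (p + 3)) = iota (p + 2) x := rfl

lemma io_a {i : ℕ} (hi : i < p + 2) : io p (aH i) = aB (i + 1) (by omega) :=
  Subtype.ext (BTwo.iota_a hi)

lemma io_inj : Function.Injective (io p) := by
  intro x y h
  apply iota_inj (p + 2)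
  exact congrArg Subtype.val h

lemma stab {b : BrH (p + 3)} (hb : piH (p + 3) (b : HB (p + 3)) 0 = 0) : ∃ x, b = io p x := by
  obtain ⟨x, hx⟩ := Br_stab b.2 hb
  exact ⟨x, Subtype.ext hx⟩

lemma pi_io_zero (x : HB (p + 2)) : piH (p + 3) ((io p x : BrH (p + 3)) : HB (p + 3)) 0 = 0 :=
  piH_iota_zero x

/-- the exponent sum on `BrH` -/
def L (p : ℕ) : BrH (p + 3) →* Multiplicative ℤ := (el (p + 3)).comp (BrH (p + 3)).subtype

lemma L_a {i : ℕ} (hi : i < p + 3) : L p (aB i hi) = Multiplicative.ofAdd 1 := el_a hi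

/-- the exponent sum of the `ζ` of the stabilizer -/
lemma L_zeta : L p (io p (zeH (p + 2))) = Multiplicative.ofAdd (((p : ℤ) + 3) * (p + 4)) := by
  have h1 : ((io p (zeH (p + 2)) : BrH (p + 3)) : HB (p + 3)) = Om (p + 3) aH :=
    iota_zeta (p + 2)
  show el (p + 3) ((io p (zeH (p + 2)) : BrH (p + 3)) : HB (p + 3)) = _
  rw [h1, el_Om]
  refine congrArg _ ?_
  push_cast
  ring

lemma L_conj (t x : BrH (p + 3)) : L p (t * x * t⁻¹) = L p x := by
  rw [map_mul, map_mul, map_inv, mul_comm (L p t), mul_inv_cancel_right]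

lemma L_io_conj (t x : HB (p + 2)) : L p (io p (t * x * t⁻¹)) = L p (io p x) := by
  have h : io p (t * x * t⁻¹) = io p t * io p x * (io p t)⁻¹ := by
    rw [map_mul, map_mul, map_inv]
  rw [h, L_conj]

/-- an automorphism which preserves the permutations is an automorphism of the stabilizer -/
theorem restrict {φ : MulAut (BrH (p + 3))}
    (hφ : ∀ x, piH (p + 3) (φ x : HB (p + 3)) = piH (p + 3) (x : HB (p + 3))) :
    ∃ φ' : MulAut (HB (p + 2)), ∀ x, φ (io p x) = io p (φ' x) := by
  have h1 : ∀ x : HB (p + 2), ∃ y, φ (io p x) = io p y := fun x => stab (by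
    rw [hφ]
    exact pi_io_zero x)
  have h2 : ∀ x : HB (p + 2), ∃ y, φ.symm (io p x) = io p y := fun x => stab (by
    rw [← hφ, MulEquiv.apply_symm_apply]
    exact pi_io_zero x)
  choose f hf using h1
  choose g hg using h2
  refine ⟨{ toFun := f, invFun := g, left_inv := ?_, right_inv := ?_, map_mul' := ?_ }, hf⟩
  · intro x
    apply io_inj
    rw [← hg, ← hf, MulEquiv.symm_apply_apply]
  · intro x
    apply io_inj
    rw [← hf, ← hg, MulEquiv.apply_symm_apply]
  · intro x y
    apply io_inj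
    rw [← hf, map_mul, map_mul, map_mul, hf, hf]

/-- the permutation of the element of the stabilizer -/
theorem p_restrict {φ : MulAut (BrH (p + 3))}
    (hφ : ∀ x, piH (p + 3) (φ x : HB (p + 3)) = piH (p + 3) (x : HB (p + 3)))
    {φ' : MulAut (HB (p + 2))} (h' : ∀ x, φ (io p x) = io p (φ' x)) (x : HB (p + 2)) :
    piH (p + 2) (φ' x) = piH (p + 2) x := by
  ext i
  have h1 := hφ (io p x)
  rw [h', io_coe, io_coe] at h1
  have h2 := piH_iota (φ' x) i
  have h3 := piH_iota x i
  have h4 := DFunLike.congr_fun h1 (i + 1)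
  have h5 : piH (p + 2 + 1) (iota (p + 2) (φ' x)) (i + 1) =
      piH (p + 2 + 1) (iota (p + 2) x) (i + 1) := h4
  omega

/-- an element whose free conjugates behave well is a power of `ζ` -/
theorem last {φ : MulAut (BrH (p + 3))} (hφL : ∀ x, L p (φ x) = L p x)
    (hid : ∀ x, φ (io p x) = io p x)
    (hst : piH (p + 3) (((aB 0 (by omega) : BrH (p + 3))⁻¹ * φ (aB 0 (by omega)) : BrH (p + 3)) :
      HB (p + 3)) 0 = 0) : φ = 1 := by
  obtain ⟨s, hs⟩ : ∃ s : BrH (p + 3), s = aB 0 (by omega) := ⟨_, rfl⟩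
  rw [← hs] at hst
  obtain ⟨u, hu⟩ := stab hst
  have hφ0 : φ s = s * io p u := by rw [← hu, mul_inv_cancel_left]
  have hcomm : ∀ x, u * zH (p + 2) x = zH (p + 2) x * u := by
    intro x
    apply io_inj
    rw [map_mul, map_mul]
    have hpure : piH (p + 3) ((io p (zH (p + 2) x) : BrH (p + 3)) : HB (p + 3)) = 1 := by
      ext i
      rw [io_coe]
      rcases Nat.eq_zero_or_pos i with rfl | hi
      · exact piH_iota_zero _
      · obtain ⟨r, rfl⟩ : ∃ r, i = r + 1 := ⟨i - 1, by omega⟩
        have h1 := piH_iota (zH (p + 2) x) r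
        rw [piH_zH] at h1
        exact h1
    obtain ⟨z, hz⟩ := stab (b := s * io p (zH (p + 2) x) * s⁻¹) (by
      rw [Subgroup.coe_mul, Subgroup.coe_mul, map_mul, map_mul, hpure, mul_one, Subgroup.coe_inv,
        map_inv, mul_inv_cancel]
      rfl)
    have h1 := hid z
    rw [← hz, map_mul, map_mul, map_inv, hid, hφ0] at h1
    have h2 : io p u * io p (zH (p + 2) x) * (io p u)⁻¹ = io p (zH (p + 2) x) := by
      have h3 : s * (io p u * io p (zH (p + 2) x) * (io p u)⁻¹) * s⁻¹ =
          s * io p (zH (p + 2) x) * s⁻¹ := by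
        rw [← h1]
        group
      exact mul_left_cancel (mul_right_cancel h3)
    rw [mul_inv_eq_iff_eq_mul] at h2
    exact h2
  obtain ⟨n, hn⟩ := Subgroup.mem_zpowers_iff.1 (eq_zeta_pow (k := p + 1) hcomm)
  have hn' : zeH (p + 2) ^ n = u := hn
  have hn0 : n = 0 := by
    have h1 := hφL s
    rw [hφ0, map_mul, ← hn', map_zpow, map_zpow, L_zeta, mul_eq_left, ← ofAdd_zsmul] at h1
    have h2 : n • (((p : ℤ) + 3) * (p + 4)) = 0 := h1
    rw [smul_eq_mul] at h2
    rcases mul_eq_zero.1 h2 with h3 | h3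
    · exact h3
    · exfalso
      have h4 : (0 : ℤ) < ((p : ℤ) + 3) * (p + 4) := by positivity
      omega
  have hφ00 : φ s = s := by
    rw [hφ0, ← hn', hn0, zpow_zero, map_one, mul_one]
  have h2 : φ.toMonoidHom = MonoidHom.id (BrH (p + 3)) := by
    apply Br_ext
    intro i hi
    rcases Nat.eq_zero_or_pos i with rfl | hi0
    · rw [hs] at hφ00
      exact hφ00
    · obtain ⟨r, rfl⟩ : ∃ r, i = r + 1 := ⟨i - 1, by omega⟩
      show φ (aB (r + 1) hi) = aB (r + 1) hi
      rw [← io_a (show r < p + 2 by omega), hid]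
  ext x
  exact congrArg Subtype.val (DFunLike.congr_fun h2 x)

/-- automorphisms of the braid group which preserve the exponent sum and the permutations are inner -/
theorem aut_Br (hp : 1 ≤ p) {φ : MulAut (BrH (p + 3))} (hφL : ∀ x, L p (φ x) = L p x)
    (hφp : ∀ x, piH (p + 3) (φ x : HB (p + 3)) = piH (p + 3) (x : HB (p + 3))) :
    ∃ t : BrH (p + 3), ∀ x, φ x = t * x * t⁻¹ := by
  have hZ : (20 : ℤ) ≤ ((p : ℤ) + 3) * (p + 4) := by
    have h1 : (1 : ℤ) ≤ p := by exact_mod_cast hp
    nlinarith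
  obtain ⟨φ', hφ'⟩ := restrict hφp
  have hφ'p := p_restrict hφp hφ'
  have hL' : ∀ x, L p (io p (φ' x)) = L p (io p x) := fun x => by rw [← hφ', hφL]
  have hζ : φ' (zeH (p + 2)) = zeH (p + 2) := by
    obtain ⟨n, hn⟩ := Subgroup.mem_zpowers_iff.1
      (eq_zeta_pow (k := p + 1) (u := φ' (zeH (p + 2))) (fun x => by
        obtain ⟨y, hy⟩ := φ'.surjective (zH (p + 2) x)
        have h1 := congrArg φ' (zeH_comm y)
        rw [map_mul, map_mul, hy] at h1
        exact h1.symm))
    have hn' : zeH (p + 2) ^ n = φ' (zeH (p + 2)) := hn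
    have h1 := hL' (zeH (p + 2))
    rw [← hn', map_zpow, map_zpow, L_zeta, ← ofAdd_zsmul] at h1
    have h2 : n • (((p : ℤ) + 3) * (p + 4)) = ((p : ℤ) + 3) * (p + 4) := h1
    rw [smul_eq_mul] at h2
    have h3 : n = 1 := by
      have h4 : (n - 1) * (((p : ℤ) + 3) * (p + 4)) = 0 := by linarith
      rcases mul_eq_zero.1 h4 with h5 | h5
      · omega
      · omega
    rw [← hn', h3, zpow_one]
  have ha : ∀ l : ℤ, Tr (p + 2) l (aH 0) = aH 0 * zeH (p + 2) ^ l :=
    fun l => liftH_a _ (by omega)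
  have hLa : L p (io p (aH 0)) = Multiplicative.ofAdd 1 := by
    rw [io_a (by omega), L_a]
  obtain ⟨t, l, ht | ht⟩ := aut_H (m := p) hp φ' hφ'p hζ
  · have hl : l = 0 := by
      have h1 := hL' (aH 0)
      have h2 : φ' (aH 0) = t * (aH 0 * zeH (p + 2) ^ l) * t⁻¹ := by
        rw [← ha]
        exact ht (aH 0)
      rw [h2, L_io_conj, map_mul, map_zpow, map_mul, map_zpow,
        L_zeta, hLa, mul_eq_left, ← ofAdd_zsmul] at h1
      have h3 : l • (((p : ℤ) + 3) * (p + 4)) = 0 := h1
      rw [smul_eq_mul] at h3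
      rcases mul_eq_zero.1 h3 with h4 | h4
      · exact h4
      · omega
    subst hl
    have ht' : ∀ x, φ' x = t * x * t⁻¹ := by
      intro x
      have h1 := ht x
      rw [Tr_zero] at h1
      exact h1
    have hT : ∀ i, i < p + 2 →
        piH (p + 2) t * swap i (i + 1) * (piH (p + 2) t)⁻¹ = swap i (i + 1) := by
      intro i hi
      have h2 := hφ'p (aH i)
      have h3 : piH (p + 2) (aH i) = swap i (i + 1) := liftH_a _ hi
      rw [ht', map_mul, map_mul, map_inv, h3] at h2
      exact h2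
    have hT0 : piH (p + 2) t 0 = 0 := fix_zero (hT 0 (by omega)) (hT 1 (by omega))
    set φ₁ : MulAut (BrH (p + 3)) := MulAut.conj (io p t)⁻¹ * φ with hφ₁def
    have hφ₁ : ∀ x, φ₁ x = (io p t)⁻¹ * φ x * io p t := by
      intro x
      rw [hφ₁def, MulAut.mul_apply, MulAut.conj_apply, inv_inv]
    have hfin : φ₁ = 1 := by
      apply last
      · intro x
        have h1 := L_conj (io p t)⁻¹ (φ x)
        rw [inv_inv] at h1
        rw [hφ₁, h1, hφL]
      · intro x
        rw [hφ₁, hφ', ht', map_mul, map_mul, map_inv]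
        group
      · have hP0 : piH (p + 3) ((io p t : BrH (p + 3)) : HB (p + 3)) 0 = 0 := pi_io_zero t
        have hP1 : piH (p + 3) ((io p t : BrH (p + 3)) : HB (p + 3)) 1 = 1 := by
          rw [io_coe]
          have h1 := piH_iota t 0
          rw [hT0] at h1
          exact h1
        have hs : piH (p + 3) ((aB 0 (by omega) : BrH (p + 3)) : HB (p + 3)) = swap 0 1 :=
          BTwo.piH_a (k := p + 3) (j := 0) (by omega)
        have hP1' : (piH (p + 3) ((io p t : BrH (p + 3)) : HB (p + 3)))⁻¹ 1 = 1 := by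
          rw [Equiv.Perm.inv_eq_iff_eq]
          exact hP1.symm
        rw [hφ₁]
        simp only [Subgroup.coe_mul, Subgroup.coe_inv, map_mul, map_inv]
        rw [hφp, hs]
        simp only [Equiv.Perm.mul_apply]
        rw [hP0, swap_apply_left, hP1']
        rw [swap_inv, swap_apply_right]
    refine ⟨io p t, fun x => ?_⟩
    have h1 := hφ₁ x
    rw [hfin, MulAut.one_apply] at h1
    calc φ x = io p t * ((io p t)⁻¹ * φ x * io p t) * (io p t)⁻¹ := by group
      _ = io p t * x * (io p t)⁻¹ := by rw [← h1]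
  · exfalso
    have h1 := hL' (aH 0)
    have h2 : φ' (aH 0) = t * (aH 0 * zeH (p + 2) ^ l)⁻¹ * t⁻¹ := by
      have h3 : Sp (p + 2) (aH 0) = (aH 0)⁻¹ := liftH_a _ (by omega)
      have h5 : φ' (aH 0) = t * Tr (p + 2) l (Sp (p + 2) (aH 0)) * t⁻¹ := ht (aH 0)
      rw [h5, h3, map_inv, ha]
    rw [h2, L_io_conj, map_inv, map_inv, map_mul, map_zpow,
      map_mul, map_zpow, L_zeta, hLa, ← ofAdd_zsmul, ← ofAdd_add, ← ofAdd_neg] at h1
    have h3 : -(1 + l • (((p : ℤ) + 3) * (p + 4))) = 1 := h1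
    rw [smul_eq_mul] at h3
    have h4 : l * (((p : ℤ) + 3) * (p + 4)) = -2 := by linarith
    rcases lt_trichotomy l 0 with h5 | h5 | h5
    · have h6 : l ≤ -1 := by omega
      nlinarith
    · rw [h5, zero_mul] at h4
      omega
    · nlinarith

/-- the permutations of the strands as permutations of `Fin (p + 4)` -/
def qF (p : ℕ) : HB (p + 3) →* Perm (Fin (p + 4)) := liftH (swF_relA (p + 1)).toRelB

lemma qF_a {i : ℕ} (hi : i < p + 3) : qF p (aH i) = swF (p + 1) i := liftH_a _ hi

lemma piH_qF (x : HB (p + 3)) : piH (p + 3) x = extF (p + 1) (qF p x) := by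
  have h : piH (p + 3) = (extF (p + 1)).comp (qF p) := by
    apply homH_ext
    · intro j hj
      rw [MonoidHom.comp_apply, qF_a hj, extF_sw hj]
      exact liftH_a _ hj
    · have e : qF p dH = 1 := liftH_d _
      rw [MonoidHom.comp_apply, e, map_one]
      exact liftH_d _
  rw [h]
  rfl

/-- the permutations are surjective -/
theorem q_surj : Function.Surjective ((qF p).comp (BrH (p + 3)).subtype) := by
  rw [← MonoidHom.range_eq_top, eq_top_iff]
  have h1 := Equiv.Perm.mclosure_swap_castSucc_succ (p + 3)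
  intro σ _
  have hσ : σ ∈ (⊤ : Submonoid (Perm (Fin (p + 3 + 1)))) := trivial
  rw [← h1] at hσ
  change σ ∈ ((qF p).comp (BrH (p + 3)).subtype).range
  have hle : Submonoid.closure (Set.range fun i : Fin (p + 3) => Equiv.swap i.castSucc i.succ) ≤
      ((qF p).comp (BrH (p + 3)).subtype).range.toSubmonoid := by
    rw [Submonoid.closure_le]
    rintro _ ⟨i, rfl⟩
    refine ⟨aB i.val i.2, ?_⟩
    have e : qF p (aH i.val) = swF (p + 1) i.val := qF_a i.2
    refine e.trans ?_
    unfold swF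
    rw [dif_pos i.2]
    rfl
  exact hle hσ

/-- the conjugation by `s` on the permutations is the conjugation by the permutation of a braid -/
theorem exists_t {β : MulAut (BrH (p + 3))} {s : Perm ℕ}
    (hs : ∀ b, piH (p + 3) (β b : HB (p + 3)) = s * piH (p + 3) (b : HB (p + 3)) * s⁻¹) :
    ∃ t : BrH (p + 3), ∀ b, piH (p + 3) (β b : HB (p + 3)) =
      piH (p + 3) ((t * b * t⁻¹ : BrH (p + 3)) : HB (p + 3)) := by
  have hsw : ∀ i (hi : i < p + 3), s i < p + 4 ∧ s (i + 1) < p + 4 := by
    intro i hi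
    have h1 := hs (aB i hi)
    have h2 : piH (p + 3) ((aB i hi : BrH (p + 3)) : HB (p + 3)) = swap i (i + 1) :=
      BTwo.piH_a hi
    rw [h2, ← Equiv.swap_apply_apply] at h1
    constructor
    · by_contra hc
      have h3 := BTwo.piH_gt (β (aB i hi) : HB (p + 3)) (i := s i) (by omega)
      rw [h1, swap_apply_left] at h3
      have h4 := s.injective h3
      omega
    · by_contra hc
      have h3 := BTwo.piH_gt (β (aB i hi) : HB (p + 3)) (i := s (i + 1)) (by omega)
      rw [h1, swap_apply_right] at h3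
      have h4 := s.injective h3
      omega
  have hs' : ∀ i, i < p + 4 → s i < p + 4 := by
    intro i hi
    rcases Nat.lt_or_ge i (p + 3) with h | h
    · exact (hsw i h).1
    · obtain rfl : i = p + 2 + 1 := by omega
      exact (hsw (p + 2) (by omega)).2
  let c : Fin (p + 4) → Fin (p + 4) := fun i => ⟨s i, hs' i i.2⟩
  have hc : Function.Injective c := by
    intro i j hij
    have h1 : s i = s j := congrArg Fin.val hij
    exact Fin.ext (s.injective h1)
  let g : Perm (Fin (p + 4)) := Equiv.ofBijective c (Finite.injective_iff_bijective.1 hc)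
  have hg : ∀ (i : ℕ) (hi : i < p + 4), ((g ⟨i, hi⟩ : Fin (p + 4)) : ℕ) = s i := fun i hi => rfl
  obtain ⟨t, ht⟩ := q_surj (p := p) g
  have hu : ∀ i, i < p + 4 → piH (p + 3) (t : HB (p + 3)) i = s i := by
    intro i hi
    have h1 : qF p (t : HB (p + 3)) = g := ht
    rw [piH_qF, h1, extF_apply _ (show i < p + 1 + 3 by omega)]
    exact hg i hi
  refine ⟨t, fun b => ?_⟩
  ext n
  rcases Nat.lt_or_ge n (p + 4) with hn | hn
  · obtain ⟨i, hi, hin⟩ : ∃ i, i < p + 4 ∧ s i = n := by
      obtain ⟨i, hi⟩ := g.surjective ⟨n, hn⟩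
      exact ⟨i, i.2, congrArg Fin.val hi⟩
    have hb : piH (p + 3) (b : HB (p + 3)) i < p + 4 := by
      have := BTwo.piH_le (b : HB (p + 3)) (i := i) (by omega)
      omega
    have e1 : s⁻¹ n = i := by
      rw [Equiv.Perm.inv_eq_iff_eq]
      exact hin.symm
    have e2 : (piH (p + 3) (t : HB (p + 3)))⁻¹ n = i := by
      rw [Equiv.Perm.inv_eq_iff_eq, hu i hi]
      exact hin.symm
    rw [hs, Subgroup.coe_mul, Subgroup.coe_mul, Subgroup.coe_inv, map_mul, map_mul, map_inv]
    simp only [Equiv.Perm.mul_apply]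
    rw [e1, e2, hu _ hb]
  · rw [BTwo.piH_gt _ (by omega), BTwo.piH_gt _ (by omega)]

/-- the exponent sum is the one of `D p` -/
lemma L_lenD (b : BrH (p + 3)) : L p b = lenD p (jB p b) := by
  obtain ⟨c, hc⟩ := hom_Br (L p)
  have h0 := hc (aB 0 (by omega))
  have h1 : lenD p (jB p (aB 0 (by omega))) = Multiplicative.ofAdd 1 := by
    rw [jB_a (by omega), lenD_a (by omega)]
  rw [h1, L_a, ← ofAdd_zsmul, smul_eq_mul, mul_one] at h0
  have h2 : (1 : ℤ) = c := Multiplicative.ofAdd.injective h0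
  rw [hc b, ← h2, zpow_one]

/-- the statement on the braid group which is used in the project -/
theorem brInner (hp : 1 ≤ p) : BrInner p := by
  intro β hl hs
  obtain ⟨s, hs⟩ := hs
  obtain ⟨t, ht⟩ := exists_t hs
  set φ : MulAut (BrH (p + 3)) := MulAut.conj t⁻¹ * β with hφdef
  have hφ : ∀ x, φ x = t⁻¹ * β x * t := by
    intro x
    rw [hφdef, MulAut.mul_apply, MulAut.conj_apply, inv_inv]
  obtain ⟨u, hu⟩ := aut_Br hp (φ := φ) (by
    intro x
    have h1 := L_conj t⁻¹ (β x)
    rw [inv_inv] at h1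
    rw [hφ, h1, L_lenD, L_lenD, hl]) (by
    intro x
    rw [hφ, Subgroup.coe_mul, Subgroup.coe_mul, map_mul, map_mul, ht]
    simp only [Subgroup.coe_mul, Subgroup.coe_inv, map_mul, map_inv]
    group)
  refine ⟨t * u, fun b => ?_⟩
  have h1 := hu b
  rw [hφ] at h1
  calc β b = t * (t⁻¹ * β b * t) * t⁻¹ := by group
    _ = t * (u * b * u⁻¹) * t⁻¹ := by rw [h1]
    _ = t * u * b * (t * u)⁻¹ := by group

end

end Pool.Agent.Helper16.DN
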